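import Mathlib

set_option autoImplicit false

namespace Pool.Agent.Lib.helper27.WPNT
open Finset Filter Topology MeasureTheory Complex ArithmeticFunction

/-- the Fejer kernel -/
noncomputable def kern (T u : ℝ) : ℝ := ∫ t in (0 : ℝ)..T, (T - t) * Real.cos (t * u)

lemma int_tri (T : ℝ) : ∫ t in (0 : ℝ)..T, (T - t) = T ^ 2 / 2 := by
  rw [intervalIntegral.integral_sub (by simp) (by simp)]
  simp
  ring

lemma kern_eq (T : ℝ) {u : ℝ} (hu : u ≠ 0) : kern T u = (1 - Real.cos (T * u)) / u ^ 2 := by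
  have h : ∀ t ∈ Set.uIcc (0 : ℝ) T, HasDerivAt
      (fun t => (T - t) * Real.sin (t * u) / u - Real.cos (t * u) / u ^ 2)
      ((T - t) * Real.cos (t * u)) t := by
    intro t _
    have h1 : HasDerivAt (fun t => t * u) u t := by simpa using (hasDerivAt_id t).mul_const u
    have h2 := (((hasDerivAt_id t).const_sub T).mul h1.sin).div_const u
    have h3 := h1.cos.div_const (u ^ 2)
    refine (h2.sub h3).congr_deriv ?_
    simp only [id]
    field_simp
    ring
  unfold kern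
  rw [intervalIntegral.integral_eq_sub_of_hasDerivAt h (Continuous.intervalIntegrable (by fun_prop) _ _)]
  simp
  ring

lemma kern_nonneg {T : ℝ} (u : ℝ) : 0 ≤ kern T u := by
  by_cases hu : u = 0
  · subst hu
    unfold kern
    simp only [mul_zero, Real.cos_zero, mul_one]
    rw [int_tri]; positivity
  · rw [kern_eq T hu]
    exact div_nonneg (by linarith [Real.cos_le_one (T * u)]) (sq_nonneg _)

lemma kern_le {T : ℝ} (hT : 0 ≤ T) (u : ℝ) : kern T u ≤ T ^ 2 / 2 := by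
  rw [← int_tri]
  apply intervalIntegral.integral_mono_on hT (Continuous.intervalIntegrable (by fun_prop) _ _)
    (Continuous.intervalIntegrable (by fun_prop) _ _)
  intro t ht
  exact mul_le_of_le_one_right (by linarith [ht.2]) (Real.cos_le_one _)

lemma kern_le' (T : ℝ) {u : ℝ} (hu : u ≠ 0) : kern T u ≤ 2 / u ^ 2 := by
  rw [kern_eq T hu]
  gcongr
  linarith [Real.neg_one_le_cos (T * u)]

lemma kern_ge {T u : ℝ} (hT : 0 < T) (hu : |u| ≤ 1 / T) : T ^ 2 / 4 ≤ kern T u := by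
  have e : T ^ 2 / 4 = ∫ t in (0 : ℝ)..T, (T - t) * (1 / 2) := by
    rw [intervalIntegral.integral_mul_const, int_tri]; ring
  rw [e]
  apply intervalIntegral.integral_mono_on hT.le (Continuous.intervalIntegrable (by fun_prop) _ _)
    (Continuous.intervalIntegrable (by fun_prop) _ _)
  intro t ht
  apply mul_le_mul_of_nonneg_left _ (by linarith [ht.2])
  have h1 := Real.one_sub_sq_div_two_le_cos (x := t * u)
  have h2 : |t * u| ≤ 1 := by
    rw [abs_mul, abs_of_nonneg ht.1]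
    calc t * |u| ≤ T * (1 / T) := mul_le_mul ht.2 hu (abs_nonneg _) hT.le
      _ = 1 := by field_simp
  have h3 : (t * u) ^ 2 ≤ 1 := by rw [← sq_abs]; nlinarith [abs_nonneg (t * u)]
  linarith

lemma term_re (a : ℕ → ℝ) {σ : ℝ} (hσ : 0 < σ) (t y : ℝ) (n : ℕ) :
    (LSeries.term (fun n => (a n : ℂ)) (σ + t * I) n * exp (t * y * I)).re =
      a n * (n : ℝ) ^ (-σ) * Real.cos (t * (Real.log n - y)) := by
  rcases eq_or_ne n 0 with rfl | hn
  · simp [Real.zero_rpow (neg_ne_zero.mpr hσ.ne')]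
  have hn' : (0 : ℝ) < n := by exact_mod_cast Nat.pos_of_ne_zero hn
  have e : -((Real.log n : ℂ) * (σ + t * I)) + t * y * I =
      ((Real.log n * -σ : ℝ) : ℂ) + ((-(t * (Real.log n - y)) : ℝ) : ℂ) * I := by
    rw [ofReal_mul, ofReal_neg, ofReal_neg, ofReal_mul, ofReal_sub]; ring
  rw [LSeries.term_of_ne_zero hn, cpow_def_of_ne_zero (by exact_mod_cast hn),
    Real.rpow_def_of_pos hn', ← natCast_log, div_eq_mul_inv, ← exp_neg, mul_assoc, ← exp_add, e,
    exp_add, ← ofReal_exp, re_ofReal_mul, re_ofReal_mul, exp_ofReal_mul_I_re, Real.cos_neg,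
    mul_assoc]

lemma hasSum_kern (a : ℕ → ℝ) {σ : ℝ} (hσ : 0 < σ) (hs : LSeriesSummable (fun n => (a n : ℂ)) σ)
    {T : ℝ} (hT : 0 ≤ T) (y : ℝ) :
    HasSum (fun n : ℕ => a n * (n : ℝ) ^ (-σ) * kern T (Real.log n - y))
      (∫ t in (0 : ℝ)..T, (T - t) *
        (LSeries (fun n => (a n : ℂ)) (σ + t * I) * exp (t * y * I)).re) := by
  have h0 : Summable (fun n : ℕ => T * ‖LSeries.term (fun n => (a n : ℂ)) σ n‖) :=
    (summable_norm_iff.mpr hs).mul_left T
  have h1 := intervalIntegral.hasSum_integral_of_dominated_convergence (μ := volume) (a := 0) (b := T)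
    (F := fun (n : ℕ) t => (T - t) *
      (LSeries.term (fun n => (a n : ℂ)) (σ + t * I) n * exp (t * y * I)).re)
    (f := fun t => (T - t) * (LSeries (fun n => (a n : ℂ)) (σ + t * I) * exp (t * y * I)).re)
    (fun n _ => T * ‖LSeries.term (fun n => (a n : ℂ)) σ n‖)
    (fun n => by
      simp only [term_re a hσ]
      exact Continuous.aestronglyMeasurable (by fun_prop))
    (fun n => Eventually.of_forall fun t ht => by
      rw [Set.uIoc_of_le hT] at ht
      rw [norm_mul, Real.norm_of_nonneg (by linarith [ht.2])]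
      apply mul_le_mul (by linarith [ht.1]) _ (norm_nonneg _) hT
      refine (abs_re_le_norm _).trans (le_of_eq ?_)
      rw [norm_mul, ← ofReal_mul, norm_exp_ofReal_mul_I, mul_one, LSeries.norm_term_eq,
        LSeries.norm_term_eq]
      simp)
    (Eventually.of_forall fun _ _ => h0) (by simp)
    (Eventually.of_forall fun t _ => by
      have h2 : LSeriesSummable (fun n => (a n : ℂ)) (σ + t * I) :=
        hs.of_re_le_re (by simp)
      exact (hasSum_re (h2.hasSum.mul_right (exp (t * y * I)))).mul_left _)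
  simp only [term_re a hσ] at h1
  have e : (fun n : ℕ => a n * (n : ℝ) ^ (-σ) * kern T (Real.log n - y)) = fun n : ℕ =>
      ∫ t in (0 : ℝ)..T, (T - t) * (a n * (n : ℝ) ^ (-σ) * Real.cos (t * (Real.log n - y))) := by
    ext n
    unfold kern
    rw [← intervalIntegral.integral_const_mul]
    exact intervalIntegral.integral_congr fun t _ => by ring
  rw [e]
  exact h1

lemma rl (G : ℂ → ℂ) (hG : ContinuousOn G {s | 1 ≤ s.re}) {T : ℝ} (hT : 0 ≤ T) {ε : ℝ}
    (hε : 0 < ε) : ∃ δ > 0, ∃ y0 : ℝ, ∀ σ y : ℝ, 1 ≤ σ → σ ≤ 1 + δ → y0 ≤ y →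
    |∫ t in (0 : ℝ)..T, (T - t) * (G (σ + t * I) * exp (t * y * I)).re| ≤ ε := by
  have hc : ∀ σ : ℝ, 1 ≤ σ → Continuous (fun t : ℝ => G (σ + t * I)) := fun σ hσ =>
    hG.comp_continuous (by fun_prop) (fun t => by simpa using hσ)
  have hK : IsCompact (Set.Icc (1 : ℝ) 2 ×ℂ Set.Icc (0 : ℝ) T) := isCompact_Icc.reProdIm isCompact_Icc
  have hU := hK.uniformContinuousOn_of_continuous (hG.mono fun s hs => hs.1.1)
  obtain ⟨δ, hδ, h1⟩ := Metric.uniformContinuousOn_iff_le.mp hU (ε / (2 * (T ^ 2 + 1)))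
    (by positivity)
  have h2 := Real.tendsto_integral_exp_smul_cocompact
    ((Set.Ioc 0 T).indicator (fun t : ℝ => ((T - t : ℝ) : ℂ) * G ((1 : ℝ) + t * I)))
  have h3 : Tendsto (fun y : ℝ => -y / (2 * Real.pi)) atTop (cocompact ℝ) :=
    (tendsto_neg_atTop_atBot.atBot_div_const (by positivity)).mono_right atBot_le_cocompact
  obtain ⟨y0, h4⟩ := eventually_atTop.mp
    ((Metric.tendsto_nhds.mp (h2.comp h3)) (ε / 2) (by positivity))
  refine ⟨min δ 1, by positivity, y0, fun σ y hσ hσ' hy => ?_⟩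
  have h5 := h4 y hy
  have e1 : (∫ v : ℝ, Real.fourierChar (-(v * (-y / (2 * Real.pi)))) •
      (Set.Ioc 0 T).indicator (fun t : ℝ => ((T - t : ℝ) : ℂ) * G ((1 : ℝ) + t * I)) v) =
      ∫ t in (0 : ℝ)..T, ((T - t : ℝ) : ℂ) * (G ((1 : ℝ) + t * I) * exp (t * y * I)) := by
    rw [intervalIntegral.integral_of_le hT, ← integral_indicator measurableSet_Ioc]
    congr 1
    ext v
    by_cases hv : v ∈ Set.Ioc 0 T
    · rw [Set.indicator_of_mem hv, Set.indicator_of_mem hv, Circle.smul_def,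
        Real.fourierChar_apply, smul_eq_mul]
      have : (2 * Real.pi * -(v * (-y / (2 * Real.pi))) : ℝ) = v * y := by field_simp
      rw [this]; push_cast; ring
    · rw [Set.indicator_of_notMem hv, Set.indicator_of_notMem hv, smul_zero]
  simp only [Function.comp, dist_zero_right] at h5
  rw [e1] at h5
  have i1 : ∀ σ : ℝ, 1 ≤ σ → IntervalIntegrable
      (fun t : ℝ => ((T - t : ℝ) : ℂ) * (G (σ + t * I) * exp (t * y * I))) volume 0 T :=
    fun σ hσ => by
      exact Continuous.intervalIntegrable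
        (Continuous.mul (by fun_prop) ((hc σ hσ).mul (by fun_prop))) _ _
  have e2 : ∫ t in (0 : ℝ)..T, (T - t) * (G (σ + t * I) * exp (t * y * I)).re =
      (∫ t in (0 : ℝ)..T, ((T - t : ℝ) : ℂ) * (G (σ + t * I) * exp (t * y * I))).re := by
    rw [← reCLM_apply, ← reCLM.intervalIntegral_comp_comm (i1 σ hσ)]
    exact intervalIntegral.integral_congr fun t _ => by simp only [reCLM_apply, re_ofReal_mul]
  rw [e2]
  refine (abs_re_le_norm _).trans ?_
  have h6 : ‖(∫ t in (0 : ℝ)..T, ((T - t : ℝ) : ℂ) * (G (σ + t * I) * exp (t * y * I))) -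
      ∫ t in (0 : ℝ)..T, ((T - t : ℝ) : ℂ) * (G ((1 : ℝ) + t * I) * exp (t * y * I))‖ ≤
      T * (ε / (2 * (T ^ 2 + 1))) * |T - 0| := by
    rw [← intervalIntegral.integral_sub (i1 σ hσ) (i1 1 le_rfl)]
    apply intervalIntegral.norm_integral_le_of_norm_le_const
    intro t ht
    rw [Set.uIoc_of_le hT] at ht
    rw [← mul_sub, ← sub_mul, norm_mul, norm_mul, ← ofReal_mul, norm_exp_ofReal_mul_I, mul_one,
      norm_real, Real.norm_of_nonneg (by linarith [ht.2])]
    apply mul_le_mul (by linarith [ht.1]) _ (norm_nonneg _) hT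
    rw [← dist_eq_norm]
    have := min_le_left δ 1
    have := min_le_right δ 1
    apply h1
    · simp [mem_reProdIm, hσ, ht.1.le, ht.2]; linarith
    · simp [mem_reProdIm, ht.1.le, ht.2]
    · rw [dist_eq_norm, add_sub_add_right_eq_sub, ← ofReal_sub, norm_real,
        Real.norm_of_nonneg (by linarith)]
      linarith
  have h7 : T * (ε / (2 * (T ^ 2 + 1))) * |T - 0| ≤ ε / 2 := by
    rw [sub_zero, abs_of_nonneg hT]
    calc T * (ε / (2 * (T ^ 2 + 1))) * T = ε / 2 * (T ^ 2 / (T ^ 2 + 1)) := by field_simp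
      _ ≤ ε / 2 := mul_le_of_le_one_right (by positivity)
          ((div_le_one (by positivity)).mpr (by linarith))
  have h8 := norm_le_norm_sub_add
    (∫ t in (0 : ℝ)..T, ((T - t : ℝ) : ℂ) * (G (σ + t * I) * exp (t * y * I)))
    (∫ t in (0 : ℝ)..T, ((T - t : ℝ) : ℂ) * (G ((1 : ℝ) + t * I) * exp (t * y * I)))
  linarith

lemma zeta_cont : ContinuousOn (Function.update (fun s : ℂ => riemannZeta s - 1 / (s - 1)) 1
    (Real.eulerMascheroniConstant : ℂ)) {s | 1 ≤ s.re} := by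
  apply Continuous.continuousOn
  rw [continuous_iff_continuousAt]
  intro s
  by_cases hs : s = 1
  · subst hs
    exact continuousAt_update_same.mpr tendsto_riemannZeta_sub_one_div
  · rw [continuousAt_update_of_ne hs]
    exact (differentiableAt_riemannZeta hs).continuousAt.sub
      (continuousAt_const.div (by fun_prop) (sub_ne_zero.mpr hs))

/-- the smoothed sum -/
noncomputable def SK (a : ℕ → ℝ) (T σ y : ℝ) : ℝ :=
  ∑' n : ℕ, a n * (n : ℝ) ^ (-σ) * kern T (Real.log n - y)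

lemma kernel_limit (a : ℕ → ℝ) (A : ℝ)
    (hs : ∀ σ : ℝ, 1 < σ → LSeriesSummable (fun n => (a n : ℂ)) σ)
    (G : ℂ → ℂ) (hG : ContinuousOn G {s | 1 ≤ s.re})
    (hGe : ∀ s : ℂ, 1 < s.re → G s = LSeries (fun n => (a n : ℂ)) s - A / (s - 1))
    {T : ℝ} (hT : 0 ≤ T) {ε : ℝ} (hε : 0 < ε) :
    ∃ δ > 0, ∃ y0 : ℝ, ∀ σ y : ℝ, 1 < σ → σ ≤ 1 + δ → y0 ≤ y →
      |SK a T σ y - A * SK (fun _ => 1) T σ y| ≤ ε := by
  obtain ⟨δ, hδ, y0, h⟩ := rl _ (hG.sub (continuousOn_const (c := (A : ℂ)).mul zeta_cont)) hT hε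
  refine ⟨δ, hδ, y0, fun σ y hσ hσ' hy => ?_⟩
  have h1 := hasSum_kern a (by linarith) (hs σ hσ) hT y
  have hs1 : ∀ σ : ℝ, 1 < σ → LSeriesSummable (fun _ => ((1 : ℝ) : ℂ)) σ := fun σ hσ =>
    LSeriesSummable_one_iff.mpr (by simpa using hσ)
  have h2 := hasSum_kern (fun _ => 1) (by linarith) (hs1 σ hσ) hT y
  have hc : ∀ b : ℕ → ℝ, (∀ σ : ℝ, 1 < σ → LSeriesSummable (fun n => (b n : ℂ)) σ) →
      IntervalIntegrable (fun t : ℝ => (T - t) *
        (LSeries (fun n => (b n : ℂ)) (σ + t * I) * exp (t * y * I)).re) volume 0 T := by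
    intro b hb
    have k1 : LSeries.abscissaOfAbsConv (fun n => (b n : ℂ)) ≤ ((1 : ℝ) : EReal) :=
      LSeries.abscissaOfAbsConv_le_of_forall_lt_LSeriesSummable hb
    have k2 : Continuous (fun t : ℝ => LSeries (fun n => (b n : ℂ)) (σ + t * I)) :=
      (LSeries_differentiableOn _).continuousOn.comp_continuous (by fun_prop)
        (fun t => k1.trans_lt (by simpa using (by exact_mod_cast hσ : ((1 : ℝ) : EReal) < σ)))
    exact Continuous.intervalIntegrable (by fun_prop) _ _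
  unfold SK
  rw [h1.tsum_eq, h2.tsum_eq, ← intervalIntegral.integral_const_mul,
    ← intervalIntegral.integral_sub (hc a hs) ((hc _ hs1).const_mul A)]
  convert h σ y hσ.le hσ' hy using 2
  apply intervalIntegral.integral_congr
  intro t _
  have r1 : 1 < ((σ : ℂ) + t * I).re := by simpa using hσ
  have r2 : (σ : ℂ) + t * I ≠ 1 := fun e => by rw [e] at r1; simp at r1
  have r3 : LSeries (fun _ => ((1 : ℝ) : ℂ)) (σ + t * I) = riemannZeta (σ + t * I) :=
    LSeries_one_eq_riemannZeta r1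
  simp only [Pi.sub_apply, Pi.mul_apply, hGe _ r1, Function.update_of_ne r2, r3]
  have : (LSeries (fun n => (a n : ℂ)) (σ + t * I) - A / (σ + t * I - 1) -
      A * (riemannZeta (σ + t * I) - 1 / (σ + t * I - 1))) * exp (t * y * I) =
      LSeries (fun n => (a n : ℂ)) (σ + t * I) * exp (t * y * I) -
        A * (riemannZeta (σ + t * I) * exp (t * y * I)) := by ring
  rw [this, sub_re, re_ofReal_mul]
  ring

lemma SK_one_ge {T σ y : ℝ} (hT : 1 ≤ T) (hσ : 1 < σ) (hσ' : (σ - 1) * (y + 1) ≤ 1)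
    (hy : 2 * T ≤ Real.exp y) : T / (8 * Real.exp 2) ≤ SK (fun _ => 1) T σ y := by
  have hs1 : LSeriesSummable (fun _ => ((1 : ℝ) : ℂ)) σ :=
    LSeriesSummable_one_iff.mpr (by simpa using hσ)
  have h2 := (hasSum_kern (fun _ => 1) (by linarith) hs1 (by linarith : 0 ≤ T) y).summable
  have h3 := h2.sum_le_tsum (Ioc ⌊Real.exp y⌋₊ ⌊Real.exp (y + 1 / T)⌋₊)
    (fun n _ => mul_nonneg (by positivity) (kern_nonneg _))
  refine le_trans ?_ h3
  have hT' : 1 / T ≤ 1 := by rw [div_le_one (by linarith)]; exact hT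
  have hT0 : 0 < 1 / T := by positivity
  have h4 := card_nsmul_le_sum (Ioc ⌊Real.exp y⌋₊ ⌊Real.exp (y + 1 / T)⌋₊)
    (fun n : ℕ => 1 * (n : ℝ) ^ (-σ) * kern T (Real.log n - y))
    (Real.exp (-(y + 2)) * (T ^ 2 / 4)) (fun n hn => by
      rw [mem_Ioc, Nat.floor_lt (Real.exp_pos _).le, Nat.le_floor_iff (Real.exp_pos _).le] at hn
      have n0 : (0 : ℝ) < n := (Real.exp_pos _).trans hn.1
      have a1 : y < Real.log n := (Real.lt_log_iff_exp_lt n0).mpr hn.1
      have a2 : Real.log n ≤ y + 1 / T := (Real.log_le_iff_le_exp n0).mpr hn.2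
      rw [one_mul, Real.rpow_def_of_pos n0]
      apply mul_le_mul _ (kern_ge (by linarith) (abs_le.mpr ⟨by linarith, by linarith⟩))
        (by positivity) (by positivity)
      apply Real.exp_le_exp.mpr
      nlinarith)
  refine le_trans ?_ h4
  rw [nsmul_eq_mul, Nat.card_Ioc, Nat.cast_sub (Nat.floor_mono (Real.exp_le_exp.mpr (by linarith)))]
  have a1 := Nat.floor_le (Real.exp_pos y).le
  have a2 := Nat.lt_floor_add_one (Real.exp (y + 1 / T))
  have a3 : Real.exp y * (1 + 1 / T) ≤ Real.exp (y + 1 / T) := by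
    rw [Real.exp_add]
    gcongr
    linarith [Real.add_one_le_exp (1 / T)]
  have a4 : 1 ≤ Real.exp y / (2 * T) := by rw [le_div_iff₀ (by linarith)]; linarith
  have a5 : Real.exp y / (2 * T) ≤ (⌊Real.exp (y + 1 / T)⌋₊ : ℝ) - ⌊Real.exp y⌋₊ := by
    have : Real.exp y * (1 + 1 / T) = Real.exp y + 2 * (Real.exp y / (2 * T)) := by field_simp
    linarith
  calc T / (8 * Real.exp 2) = Real.exp y / (2 * T) * (Real.exp (-(y + 2)) * (T ^ 2 / 4)) := by
        rw [Real.exp_neg, Real.exp_add]; field_simp; ring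
    _ ≤ _ := by gcongr

lemma tail_le {η : ℝ} (hη : 0 < η) : ∃ C : ℝ, 0 ≤ C ∧ ∀ (y : ℝ) (A : Finset ℕ),
    (∀ n ∈ A, 0 < n ∧ η ≤ |Real.log n - y|) →
    ∑ n ∈ A, Λ n / n * (1 / (Real.log n - y) ^ 2) ≤ C := by
  have hs : Summable (fun j : ℤ => 4 * (1 / (j : ℝ) ^ 2)) :=
    (Real.summable_one_div_int_pow.mpr (by norm_num)).mul_left 4
  set Z := ∑' j : ℤ, 4 * (1 / (j : ℝ) ^ 2) with hZ
  have hZ0 : 0 ≤ Z := tsum_nonneg fun j => by positivity
  set B := (Real.log 4 + 4) * Real.exp 1 with hB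
  have hB0 : 0 ≤ B := by have := Real.log_nonneg (show (1 : ℝ) ≤ 4 by norm_num); positivity
  refine ⟨B * (2 * (1 / η ^ 2) + Z), by positivity, fun y A hA => ?_⟩
  set w : ℤ → ℝ := fun j => (if j ∈ ({0, -1} : Finset ℤ) then 1 / η ^ 2 else 0) +
    4 * (1 / (j : ℝ) ^ 2) with hw
  have hw0 : ∀ j, 0 ≤ w j := fun j => by
    simp only [hw]; split_ifs <;> positivity
  rw [← sum_fiberwise_of_maps_to (t := A.image (fun n : ℕ => ⌊Real.log n - y⌋))
    (g := fun n : ℕ => ⌊Real.log n - y⌋) (fun n hn => mem_image_of_mem _ hn)]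
  have h1 : ∀ j ∈ A.image (fun n : ℕ => ⌊Real.log n - y⌋),
      ∑ n ∈ A.filter (fun n : ℕ => ⌊Real.log n - y⌋ = j), Λ n / n * (1 / (Real.log n - y) ^ 2) ≤
      B * w j := by
    intro j _
    have h2 : ∀ n ∈ A.filter (fun n : ℕ => ⌊Real.log n - y⌋ = j),
        Λ n / n * (1 / (Real.log n - y) ^ 2) ≤ Λ n * (Real.exp (-(y + j)) * w j) := by
      intro n hn
      obtain ⟨a1, a2⟩ := mem_filter.mp hn
      obtain ⟨a3, a4⟩ := hA n a1
      obtain ⟨a5, a6⟩ := Int.floor_eq_iff.mp a2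
      have n0 : (0 : ℝ) < n := by exact_mod_cast a3
      rw [div_eq_mul_one_div, mul_assoc]
      apply mul_le_mul_of_nonneg_left _ vonMangoldt_nonneg
      apply mul_le_mul _ _ (by positivity) (by positivity)
      · rw [Real.exp_neg, one_div]
        apply inv_anti₀ (Real.exp_pos _)
        exact (Real.le_log_iff_exp_le n0).mp (by linarith)
      · simp only [hw]
        split_ifs with hj
        · have : 1 / (Real.log n - y) ^ 2 ≤ 1 / η ^ 2 := by
            apply one_div_le_one_div_of_le (by positivity)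
            rw [← sq_abs (Real.log n - y)]; gcongr
          have : (0 : ℝ) ≤ 4 * (1 / (j : ℝ) ^ 2) := by positivity
          linarith
        · simp only [mem_insert, mem_singleton, not_or] at hj
          rw [zero_add, mul_one_div]
          rcases (by omega : 1 ≤ j ∨ j ≤ -2) with h | h
          · have : (1 : ℝ) ≤ j := by exact_mod_cast h
            rw [div_le_div_iff₀ (by nlinarith) (by positivity)]
            nlinarith
          · have : (j : ℝ) ≤ -2 := by exact_mod_cast h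
            rw [div_le_div_iff₀ (by nlinarith) (by nlinarith)]
            nlinarith
    refine (sum_le_sum h2).trans ?_
    rw [← sum_mul, ← mul_assoc]
    apply mul_le_mul_of_nonneg_right _ (hw0 j)
    have h3 : ∑ n ∈ A.filter (fun n : ℕ => ⌊Real.log n - y⌋ = j), Λ n ≤
        Chebyshev.psi (Real.exp (y + j + 1)) := by
      apply sum_le_sum_of_subset_of_nonneg _ (fun _ _ _ => vonMangoldt_nonneg)
      intro n hn
      obtain ⟨a1, a2⟩ := mem_filter.mp hn
      obtain ⟨a3, a4⟩ := hA n a1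
      obtain ⟨a5, a6⟩ := Int.floor_eq_iff.mp a2
      refine mem_Ioc.mpr ⟨a3, Nat.le_floor ?_⟩
      exact (Real.log_le_iff_le_exp (by exact_mod_cast a3)).mp (by linarith)
    have h4 := Chebyshev.psi_le_const_mul_self (Real.exp_pos (y + j + 1)).le
    calc _ ≤ (Real.log 4 + 4) * Real.exp (y + j + 1) * Real.exp (-(y + j)) := by
          gcongr; exact h3.trans h4
      _ = B := by rw [mul_assoc, ← Real.exp_add, hB]; congr 2; ring
  refine (sum_le_sum h1).trans ?_
  rw [← mul_sum]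
  apply mul_le_mul_of_nonneg_left _ hB0
  simp only [hw]
  rw [sum_add_distrib]
  apply add_le_add _ (hs.sum_le_tsum _ (fun j _ => by positivity))
  rw [sum_ite_mem, sum_const, nsmul_eq_mul]
  have : ((A.image (fun n : ℕ => ⌊Real.log n - y⌋) ∩ {0, -1}).card : ℝ) ≤ 2 := by
    exact_mod_cast (card_le_card inter_subset_right).trans card_le_two
  gcongr

lemma SK_le {η : ℝ} (hη : 0 < η) : ∃ C : ℝ, 0 ≤ C ∧ ∀ (a : ℕ → ℝ) (T σ y : ℝ),
    (∀ n, 0 ≤ a n ∧ a n ≤ Λ n) → 0 ≤ T → 1 < σ →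
    SK a T σ y ≤ T ^ 2 / 2 * Real.exp (η - y) *
      ∑ n ∈ Ioc ⌊Real.exp (y - η)⌋₊ ⌊Real.exp (y + η)⌋₊, a n + C := by
  obtain ⟨C, hC, h⟩ := tail_le hη
  refine ⟨2 * C, by positivity, fun a T σ y ha hT hσ => ?_⟩
  apply Real.tsum_le_of_sum_le (fun n => mul_nonneg (mul_nonneg (ha n).1 (by positivity))
    (kern_nonneg _))
  intro A
  rw [← sum_filter_add_sum_filter_not A (fun n : ℕ => 0 < n ∧ η ≤ |Real.log n - y|), add_comm]
  have k : ∀ n : ℕ, 0 < n → (n : ℝ) ^ (-σ) ≤ 1 / n := fun n hn => by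
    rw [one_div, ← Real.rpow_neg_one]
    exact Real.rpow_le_rpow_of_exponent_le (by exact_mod_cast hn) (by linarith)
  apply add_le_add
  · rw [mul_sum, ← sum_filter_ne_zero]
    refine le_trans (sum_le_sum fun n hn => ?_) (sum_le_sum_of_subset_of_nonneg (fun n hn => ?_)
      (fun n _ _ => mul_nonneg (by positivity) (ha n).1))
    all_goals
      obtain ⟨a1, a2⟩ := mem_filter.mp hn
      have a3 : 0 < n := Nat.pos_of_ne_zero (by
        rintro rfl
        simp [Real.zero_rpow (show -σ ≠ 0 by linarith)] at a2)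
      have a4 := abs_lt.mp (lt_of_not_ge fun e => (mem_filter.mp a1).2 ⟨a3, e⟩)
      have n0 : (0 : ℝ) < n := by exact_mod_cast a3
      have a5 : Real.exp (y - η) < n := (Real.lt_log_iff_exp_lt n0).mp (by linarith)
    · have a6 : 1 / (n : ℝ) ≤ Real.exp (η - y) := by
        rw [← neg_sub, Real.exp_neg, one_div]
        exact inv_anti₀ (Real.exp_pos _) a5.le
      have := (ha n).1
      calc _ ≤ a n * Real.exp (η - y) * (T ^ 2 / 2) :=
            mul_le_mul (mul_le_mul_of_nonneg_left ((k n a3).trans a6) this) (kern_le hT _)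
              (kern_nonneg _) (by positivity)
        _ = _ := by ring
    · exact mem_Ioc.mpr ⟨(Nat.floor_lt (Real.exp_pos _).le).mpr a5,
        Nat.le_floor ((Real.log_le_iff_le_exp n0).mp (by linarith))⟩
  · refine le_trans ?_ (mul_le_mul_of_nonneg_left (h y (A.filter (fun n : ℕ => 0 < n ∧ η ≤ |Real.log n - y|))
      (fun n hn => (mem_filter.mp hn).2))
      (by norm_num : (0 : ℝ) ≤ 2))
    rw [mul_sum]
    apply sum_le_sum
    intro n hn
    obtain ⟨a1, a2⟩ := (mem_filter.mp hn).2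
    have a3 : Real.log n - y ≠ 0 := fun e => by rw [e, abs_zero] at a2; linarith
    calc _ ≤ Λ n * (1 / n) * (2 / (Real.log n - y) ^ 2) :=
          mul_le_mul (mul_le_mul (ha n).2 (k n a1) (by positivity) vonMangoldt_nonneg)
            (kern_le' T a3) (kern_nonneg _) (mul_nonneg vonMangoldt_nonneg (by positivity))
      _ = _ := by ring

theorem weak_gen (a : ℕ → ℝ) (A : ℝ) (hA : 0 < A) (ha : ∀ n, 0 ≤ a n ∧ a n ≤ Λ n)
    (hs : ∀ σ : ℝ, 1 < σ → LSeriesSummable (fun n => (a n : ℂ)) σ)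
    (G : ℂ → ℂ) (hG : ContinuousOn G {s | 1 ≤ s.re})
    (hGe : ∀ s : ℂ, 1 < s.re → G s = LSeries (fun n => (a n : ℂ)) s - A / (s - 1))
    {η : ℝ} (hη : 0 < η) : ∃ c > 0, ∃ y0 : ℝ, ∀ y, y0 ≤ y →
      c * Real.exp (y + η) ≤ ∑ n ∈ Ioc ⌊Real.exp (y - η)⌋₊ ⌊Real.exp (y + η)⌋₊, a n := by
  obtain ⟨C, hC, h1⟩ := SK_le hη
  set T := 1 + 8 * Real.exp 2 * (C + 2) / A with hT
  have hT1 : 1 ≤ T := le_add_of_nonneg_right (by positivity)
  obtain ⟨δ, hδ, y0, h2⟩ := kernel_limit a A hs G hG hGe (by linarith : 0 ≤ T) one_pos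
  refine ⟨2 / T ^ 2 * Real.exp (-(2 * η)), by positivity, max y0 (max (1 / δ) (2 * T)),
    fun y hy => ?_⟩
  have y1 : y0 ≤ y := (le_max_left _ _).trans hy
  have y2 : 1 / δ ≤ y := ((le_max_left _ _).trans (le_max_right _ _)).trans hy
  have y3 : 2 * T ≤ y := ((le_max_right _ _).trans (le_max_right _ _)).trans hy
  have s1 : 1 < 1 + 1 / (y + 1) := lt_add_of_pos_right _ (by apply one_div_pos.mpr; linarith)
  have s2 : 1 / (y + 1) ≤ δ := by
    rw [div_le_iff₀ hδ] at y2
    rw [div_le_iff₀ (by linarith)]; nlinarith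
  have h3 := abs_le.mp (h2 (1 + 1 / (y + 1)) y s1 (by linarith) y1)
  have h4 := SK_one_ge hT1 s1 (y := y) (by
    rw [add_sub_cancel_left, one_div_mul_cancel (by linarith)])
    (by linarith [Real.add_one_le_exp y])
  have h5 := h1 a T _ y ha (by linarith) s1
  have h6 : C + 2 ≤ A * (T / (8 * Real.exp 2)) := by
    rw [hT, ← mul_div_assoc, le_div_iff₀ (by positivity), mul_add, mul_div_cancel₀ _ hA.ne']
    linarith
  have h7 := mul_le_mul_of_nonneg_left h4 hA.le
  set M := ∑ n ∈ Ioc ⌊Real.exp (y - η)⌋₊ ⌊Real.exp (y + η)⌋₊, a n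
  have h8 : 1 ≤ T ^ 2 / 2 * Real.exp (η - y) * M := by linarith
  have e : 2 / T ^ 2 * Real.exp (-(2 * η)) * Real.exp (y + η) * (T ^ 2 / 2 * Real.exp (η - y)) = 1 := by
    have : Real.exp (-(2 * η)) * Real.exp (y + η) * Real.exp (η - y) = 1 := by
      rw [← Real.exp_add, ← Real.exp_add, ← Real.exp_zero]; congr 1; ring
    field_simp
    linarith
  have p : 0 < T ^ 2 / 2 * Real.exp (η - y) := by positivity
  apply le_of_mul_le_mul_right _ p
  rw [e, mul_comm M]
  exact h8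

/-- weak prime number theorem in progressions: short ratio intervals carry a positive mass -/
theorem weak_pnt_ap {q : ℕ} [NeZero q] {r : ZMod q} (hr : IsUnit r) {ε : ℝ} (hε : 0 < ε) :
    ∃ c > 0, ∃ N : ℕ, ∀ Y : ℕ, N ≤ Y → c * Y ≤ ∑ p ∈ (range (Y + 1)).filter
      (fun p : ℕ => p.Prime ∧ (p : ZMod q) = r ∧ (1 - ε) * Y < p), Real.log p := by
  have hq : (0 : ℝ) < (q.totient : ℝ)⁻¹ := by
    have := Nat.totient_pos.mpr (NeZero.pos q); positivity
  obtain ⟨c, hc, y0, h⟩ := weak_gen (vonMangoldt.residueClass r) _ hq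
    (fun n => ⟨vonMangoldt.residueClass_nonneg r n, vonMangoldt.residueClass_le r n⟩)
    (fun σ hσ => LSeriesSummable_of_abscissaOfAbsConv_lt_re
      ((vonMangoldt.abscissaOfAbsConv_residueClass_le_one r).trans_lt (by norm_cast)))
    _ (vonMangoldt.continuousOn_LFunctionResidueClassAux r)
    (fun s hs => by
      rw [vonMangoldt.eqOn_LFunctionResidueClassAux hr hs]; push_cast; rfl)
    (show 0 < ε / 2 by positivity)
  have h1 : ∀ᶠ x : ℝ in atTop, ‖Real.log x‖ ≤ (c / 4) * ‖x ^ (1 / 2 : ℝ)‖ :=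
    (isLittleO_log_rpow_atTop (by norm_num : (0 : ℝ) < 1 / 2)).bound (by positivity)
  obtain ⟨x0, hx0⟩ := eventually_atTop.mp h1
  refine ⟨c / 2, by positivity, ⌈x0⌉₊ + ⌈Real.exp (y0 + ε / 2)⌉₊ + 1, fun Y hY => ?_⟩
  have Y1 : (1 : ℝ) ≤ Y := by exact_mod_cast (show 1 ≤ Y by omega)
  have Y2 : x0 ≤ Y := (Nat.le_ceil x0).trans (by exact_mod_cast (show ⌈x0⌉₊ ≤ Y by omega))
  have Y3 : Real.exp (y0 + ε / 2) ≤ Y := (Nat.le_ceil _).trans
    (by exact_mod_cast (show ⌈Real.exp (y0 + ε / 2)⌉₊ ≤ Y by omega))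
  have Y4 := (Real.le_log_iff_exp_le (by linarith)).mpr Y3
  have h2 := h (Real.log Y - ε / 2) (by linarith)
  rw [sub_add_cancel, Real.exp_log (by linarith), Nat.floor_natCast] at h2
  have h3 := Chebyshev.psi_sub_theta_le Y1
  rw [Chebyshev.psi_sub_theta_eq_sum_not_prime, Nat.floor_natCast] at h3
  have h4 := hx0 Y Y2
  rw [Real.norm_of_nonneg (Real.log_nonneg Y1), Real.norm_of_nonneg (by positivity),
    ← Real.sqrt_eq_rpow] at h4
  have h5 : 2 * Real.sqrt Y * Real.log Y ≤ c / 2 * Y := by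
    calc _ ≤ 2 * Real.sqrt Y * (c / 4 * Real.sqrt Y) := by gcongr
      _ = c / 2 * (Real.sqrt Y * Real.sqrt Y) := by ring
      _ = _ := by rw [Real.mul_self_sqrt (by positivity)]
  rw [← sum_filter_add_sum_filter_not _ Nat.Prime] at h2
  have h6 : ∑ n ∈ (Ioc ⌊Real.exp (Real.log Y - ε / 2 - ε / 2)⌋₊ Y).filter (fun n => ¬ n.Prime),
      vonMangoldt.residueClass r n ≤ ∑ n ∈ (Ioc 0 Y).filter (fun n => ¬ n.Prime), Λ n := by
    refine le_trans (sum_le_sum fun n _ => vonMangoldt.residueClass_le r n) ?_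
    exact sum_le_sum_of_subset_of_nonneg (filter_subset_filter _ (Ioc_subset_Ioc_left
      (Nat.zero_le _))) (fun _ _ _ => vonMangoldt_nonneg)
  have h7 : ∑ n ∈ (Ioc ⌊Real.exp (Real.log Y - ε / 2 - ε / 2)⌋₊ Y).filter Nat.Prime,
      vonMangoldt.residueClass r n ≤ ∑ p ∈ (range (Y + 1)).filter
      (fun p : ℕ => p.Prime ∧ (p : ZMod q) = r ∧ (1 - ε) * Y < p), Real.log p := by
    rw [← sum_filter_ne_zero]
    refine le_trans (sum_le_sum fun n hn => ?_) (sum_le_sum_of_subset_of_nonneg (fun n hn => ?_)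
      (fun n _ _ => Real.log_natCast_nonneg n))
    · refine (vonMangoldt.residueClass_le r n).trans (le_of_eq ?_)
      exact vonMangoldt_apply_prime (mem_filter.mp (mem_filter.mp hn).1).2
    · obtain ⟨a1, a2⟩ := mem_filter.mp hn
      obtain ⟨a3, a4⟩ := mem_filter.mp a1
      rw [mem_Ioc, Nat.floor_lt (Real.exp_pos _).le] at a3
      refine mem_filter.mpr ⟨mem_range.mpr (by omega), a4, ?_, lt_of_le_of_lt ?_ a3.1⟩
      · by_contra e
        exact a2 (Set.indicator_of_notMem (s := {n : ℕ | (n : ZMod q) = r}) e _)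
      · rw [sub_sub, add_halves, Real.exp_sub, Real.exp_log (by linarith), div_eq_mul_inv,
          ← Real.exp_neg, mul_comm]
        gcongr
        linarith [Real.add_one_le_exp (-ε)]
  linarith

/-- weak prime number theorem -/
theorem weak_pnt {ε : ℝ} (hε : 0 < ε) :
    ∃ c > 0, ∃ N : ℕ, ∀ Y : ℕ, N ≤ Y → c * Y ≤ ∑ p ∈ (range (Y + 1)).filter
      (fun p : ℕ => p.Prime ∧ (1 - ε) * Y < p), Real.log p := by
  obtain ⟨c, hc, N, h⟩ := weak_pnt_ap (q := 1) (r := 1) isUnit_one hε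
  refine ⟨c, hc, N, fun Y hY => (h Y hY).trans (le_of_eq ?_)⟩
  congr 1
  ext p
  simp [Subsingleton.elim (p : ZMod 1) 1]

end Pool.Agent.Lib.helper27.WPNT
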