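import Mathlib

set_option autoImplicit false

namespace Pool.Agent.Lib.helper27

open Finset

variable {α ι : Type} [DecidableEq α] [Fintype ι]

/-- product form of the covering inequality of Shearer, every point covered with weight one -/
theorem shearer (S : ι → Finset α) (w : ℝ) (hw : 0 ≤ w) (E : Finset α)
    (hE : ∀ e ∈ E, ∑ i, (if e ∈ S i then w else 0) = 1) (F : Finset (Finset α))
    (hF : ∀ A ∈ F, A ⊆ E) : (#F : ℝ) ≤ ∏ i, (#(F.image (· ∩ S i)) : ℝ) ^ w := by
  induction E using Finset.induction_on generalizing F with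
  | empty =>
    rcases F.eq_empty_or_nonempty with rfl | ⟨A, hA⟩
    · simp only [card_empty, Nat.cast_zero]
      positivity
    · have : F = {∅} := eq_singleton_iff_unique_mem.2
        ⟨subset_empty.1 (hF A hA) ▸ hA, fun B hB => subset_empty.1 (hF B hB)⟩
      simp [this]
  | insert e E he ih =>
    rcases F.eq_empty_or_nonempty with rfl | hne
    · simp only [card_empty, Nat.cast_zero]
      positivity
    have ih := ih fun x hx => hE x (mem_insert_of_mem hx)
    have h1 := ih (F.memberSubfamily e) fun A hA => by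
      rw [mem_memberSubfamily] at hA
      exact (subset_insert_iff_of_notMem hA.2).1 ((subset_insert _ _).trans (hF _ hA.1))
    have h0 := ih (F.nonMemberSubfamily e) fun A hA => by
      rw [mem_nonMemberSubfamily] at hA
      exact (subset_insert_iff_of_notMem hA.2).1 (hF _ hA.1)
    set a := fun i => (#((F.memberSubfamily e).image (· ∩ S i)) : ℝ)
    set b := fun i => (#((F.nonMemberSubfamily e).image (· ∩ S i)) : ℝ)
    set c := fun i => (#(F.image (· ∩ S i)) : ℝ)
    have c0 : ∀ i, 0 < c i := fun i => Nat.cast_pos.2 (card_pos.2 (hne.image _))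
    have ab : ∀ i, e ∈ S i → a i + b i ≤ c i := fun i hi => by
      simp only [a, b, c]
      rw [← card_memberSubfamily_add_card_nonMemberSubfamily e (F.image _)]
      push_cast
      gcongr <;> intro x hx <;> obtain ⟨A, hA, rfl⟩ := mem_image.1 hx
      · rw [mem_memberSubfamily] at hA ⊢
        exact ⟨mem_image.2 ⟨_, hA.1, insert_inter_of_mem hi⟩, fun h => hA.2 (mem_inter.1 h).1⟩
      · rw [mem_nonMemberSubfamily] at hA ⊢
        exact ⟨mem_image.2 ⟨_, hA.1, rfl⟩, fun h => hA.2 (mem_inter.1 h).1⟩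
    have a0 : ∀ i, 0 ≤ a i := fun i => Nat.cast_nonneg _
    have b0 : ∀ i, 0 ≤ b i := fun i => Nat.cast_nonneg _
    have ac : ∀ i, a i ≤ c i := fun i => by
      by_cases hi : e ∈ S i
      · linarith [ab i hi, b0 i]
      · refine Nat.cast_le.2 (card_le_card fun x hx => ?_)
        obtain ⟨A, hA, rfl⟩ := mem_image.1 hx
        exact mem_image.2 ⟨_, (mem_memberSubfamily.1 hA).1, insert_inter_of_notMem hi⟩
    have bc : ∀ i, b i ≤ c i := fun i => Nat.cast_le.2 (card_le_card (image_subset_image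
      fun A hA => (mem_nonMemberSubfamily.1 hA).1))
    have key : ∀ x : ι → ℝ, (∀ i, 0 ≤ x i) → (∀ i, x i ≤ c i) → ∏ i, x i ^ w ≤
        (∏ i, c i ^ w) * ∑ i, (if e ∈ S i then w else 0) * (x i / c i) := fun x x0 xc => by
      have p : ∀ i, 0 ≤ x i / c i := fun i => div_nonneg (x0 i) (c0 i).le
      refine le_trans ?_ (mul_le_mul_of_nonneg_left (Real.geom_mean_le_arith_mean_weighted _ _ _
        (fun i _ => by split_ifs <;> simp [hw]) (hE e (mem_insert_self _ _)) fun i _ => p i)
        (prod_nonneg fun i _ => Real.rpow_nonneg (c0 i).le _))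
      rw [← prod_mul_distrib]
      refine prod_le_prod (fun i _ => Real.rpow_nonneg (x0 i) _) fun i _ => ?_
      split_ifs
      · rw [← Real.mul_rpow (c0 i).le (p i), mul_div_cancel₀ _ (c0 i).ne']
      · rw [Real.rpow_zero, mul_one]
        exact Real.rpow_le_rpow (x0 i) (xc i) hw
    rw [← card_memberSubfamily_add_card_nonMemberSubfamily e F]
    push_cast
    refine (add_le_add (h1.trans (key a a0 ac)) (h0.trans (key b b0 bc))).trans ?_
    rw [← mul_add, ← sum_add_distrib]
    refine mul_le_of_le_one_right (prod_nonneg fun i _ => Real.rpow_nonneg (c0 i).le _) ?_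
    rw [← hE e (mem_insert_self _ _)]
    refine sum_le_sum fun i _ => ?_
    split_ifs with hi
    · rw [← mul_add, ← add_div]
      exact mul_le_of_le_one_right hw ((div_le_one (c0 i)).2 (ab i hi))
    · simp

omit [Fintype ι] in
theorem half_aux (S : Finset α) (J : Finset (Finset α)) (hJ : ∀ A ∈ J, A ⊆ S)
    (h : ∀ A ∈ J, ∀ B ∈ J, (A ∩ B).Nonempty) :
    J ∪ J.image (S \ ·) ⊆ S.powerset ∧ #(J ∪ J.image (S \ ·)) = 2 * #J := by
  refine ⟨union_subset (fun A hA => mem_powerset.2 (hJ A hA))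
    (image_subset_iff.2 fun A _ => mem_powerset.2 sdiff_subset), ?_⟩
  rw [card_union_of_disjoint, card_image_of_injOn, two_mul]
  · intro A hA B hB e
    rw [← Finset.sdiff_sdiff_eq_self (hJ A hA), ← Finset.sdiff_sdiff_eq_self (hJ B hB)]
    exact congrArg _ e
  · refine disjoint_left.2 fun A hA hB => ?_
    obtain ⟨B, hB', rfl⟩ := mem_image.1 hB
    simpa using h _ hA _ hB'

omit [Fintype ι] in
theorem half_le (S : Finset α) (J : Finset (Finset α)) (hJ : ∀ A ∈ J, A ⊆ S)
    (h : ∀ A ∈ J, ∀ B ∈ J, (A ∩ B).Nonempty) : 2 * #J ≤ 2 ^ #S := by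
  rw [← (half_aux S J hJ h).2, ← card_powerset]
  exact card_le_card (half_aux S J hJ h).1

omit [Fintype ι] in
theorem half_lt (S : Finset α) (J : Finset (Finset α)) (hJ : ∀ A ∈ J, A ⊆ S)
    (h : ∀ A ∈ J, ∀ B ∈ J, 2 ≤ #(A ∩ B)) : 2 * #J < 2 ^ #S := by
  have h1 : ∀ A ∈ J, ∀ B ∈ J, (A ∩ B).Nonempty := fun A hA B hB =>
    card_pos.1 (two_pos.trans_le (h A hA B hB))
  obtain ⟨p, q⟩ := half_aux S J hJ h1
  rcases J.eq_empty_or_nonempty with rfl | hne
  · simp
  obtain ⟨A, hA, hm⟩ := exists_min_image J card hne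
  obtain ⟨a, ha⟩ := h1 A hA A hA
  rw [inter_self] at ha
  rw [← q, ← card_powerset]
  refine card_lt_card ⟨p, fun k => ?_⟩
  rcases mem_union.1 (k (mem_powerset.2 ((erase_subset a A).trans (hJ A hA)))) with m | m
  · exact (card_erase_lt_of_mem ha).not_ge (hm _ m)
  · obtain ⟨B, hB, e⟩ := mem_image.1 m
    refine absurd ((h A hA B hB).trans (card_le_card (t := {a}) fun x hx => ?_)) (by simp)
    by_contra hx'
    have : x ∈ S \ B := e ▸ mem_erase.2 ⟨by simpa using hx', (mem_inter.1 hx).1⟩
    exact (mem_sdiff.1 this).2 (mem_inter.1 hx).2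

end Pool.Agent.Lib.helper27
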