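import Pool.Agent.Lib.helper4.Energy
import Pool.Agent.Lib.helper6.PSD

set_option autoImplicit false

namespace Pool.Agent.Lib.helper27.EnergyCert

open Matrix Finset Pool.Agent.Lib.helper4.Energy Pool.Agent.Lib.helper6

variable {V : Type} [Fintype V] [DecidableEq V]

theorem roots_sum {A : Matrix V V ℝ} (h : A.IsHermitian) :
    (A.charpoly.roots.map fun x => |x|).sum = ∑ i, |h.eigenvalues i| := by
  rw [h.roots_charpoly_eq_eigenvalues]
  simp [Multiset.map_map]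

theorem upper {A : Matrix V V ℝ} (hA : A.IsHermitian) (M X Y : Matrix V V ℤ) (s : ℤ)
    (hM : ∀ a b, A a b = M a b) : 2 * s * ∑ i, |hA.eigenvalues i| ≤
      ((∑ a, ∑ b, (X a b ^ 2 + Y a b ^ 2 + 2 * |s * M a b - ∑ k, X k a * Y k b|) : ℤ) : ℝ) := by
  obtain ⟨Q, q1, q2, q3⟩ := exists_trace_eq hA
  let X' : Matrix V V ℝ := X.map Int.cast
  let Y' : Matrix V V ℝ := Y.map Int.cast
  have e : (s : ℝ) * (Q * A).trace = (Q * (X'ᵀ * Y')).trace + (Q * ((s : ℝ) • A - X'ᵀ * Y')).trace := by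
    rw [Matrix.mul_sub, trace_sub, Matrix.mul_smul, trace_smul, smul_eq_mul]
    ring
  have h1 : (Q * ((s : ℝ) • A - X'ᵀ * Y')).trace ≤
      ∑ a, ∑ b, |(s : ℝ) * M a b - ∑ k, (X k a : ℝ) * Y k b| := by
    rw [trace_mul_comm, trace]
    refine sum_le_sum fun a _ => ?_
    rw [diag_apply, mul_apply]
    refine sum_le_sum fun b _ => (le_abs_self _).trans ?_
    rw [abs_mul]
    refine (mul_le_of_le_one_right (abs_nonneg _) (abs_le_one q1 b a)).trans_eq ?_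
    simp [mul_apply, hM, X', Y']
  have h2 : ∀ Z : Matrix V V ℝ, (Z * Zᵀ).trace = ∑ a, ∑ b, Z a b ^ 2 := fun Z => by
    simp [trace, mul_apply, sq]
  have h3 : 2 * (Q * (X'ᵀ * Y')).trace ≤ ∑ a, ∑ b, ((X a b : ℝ) ^ 2 + (Y a b : ℝ) ^ 2) := by
    have k := h2 (X' * Qᵀ - Y')
    have k0 : 0 ≤ ∑ a, ∑ b, (X' * Qᵀ - Y') a b ^ 2 := by positivity
    have k1 : (X' * Qᵀ * (Q * X'ᵀ)).trace = ∑ a, ∑ b, (X a b : ℝ) ^ 2 := by
      rw [Matrix.mul_assoc, ← Matrix.mul_assoc Qᵀ, q1, Matrix.one_mul, h2]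
      rfl
    have k2 : (Y' * (Q * X'ᵀ)).trace = (Q * (X'ᵀ * Y')).trace := by
      rw [trace_mul_comm, Matrix.mul_assoc]
    have k3 : (X' * Qᵀ * Y'ᵀ).trace = (Y' * (Q * X'ᵀ)).trace := by
      rw [← trace_transpose]
      simp [transpose_mul]
    have k4 : (Y' * Y'ᵀ).trace = ∑ a, ∑ b, (Y a b : ℝ) ^ 2 := h2 Y'
    simp only [transpose_sub, transpose_mul, transpose_transpose, Matrix.mul_sub, Matrix.sub_mul,
      trace_sub, k1, k2, k3, k4] at k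
    simp only [sum_add_distrib]
    linarith
  push_cast
  simp only [sum_add_distrib, ← mul_sum] at h3 ⊢
  rw [← q3]
  linarith

theorem lower {A : Matrix V V ℝ} (hA : A.IsHermitian) (M Q : Matrix V V ℤ) (s : ℤ) (hs : 0 < s)
    (hM : ∀ a b, A a b = M a b)
    (hd : ∀ i, ∑ j, |(if i = j then s ^ 2 else 0) - ∑ k, Q k i * Q k j| ≤
      2 * (s ^ 2 - ∑ k, Q k i * Q k i)) :
    ((∑ a, ∑ b, Q a b * M b a : ℤ) : ℝ) ≤ s * ∑ i, |hA.eigenvalues i| := by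
  obtain ⟨U, h1, h2, h3⟩ := spec hA
  let Q' : Matrix V V ℝ := Q.map Int.cast
  have s0 : (0 : ℝ) < s := by exact_mod_cast hs
  have c : ∀ x : V → ℝ, (Q' *ᵥ x) ⬝ᵥ (Q' *ᵥ x) ≤ s ^ 2 * x ⬝ᵥ x := fun x => by
    have h := quad_nonneg_of_dom ((s : ℝ) ^ 2 • (1 : Matrix V V ℝ) - Q'ᵀ * Q')
      (fun i j => by simp [mul_apply, one_apply, mul_comm, eq_comm])
      (fun i => by
        have : ((∑ j, |(if i = j then s ^ 2 else 0) - ∑ k, Q k i * Q k j| : ℤ) : ℝ) ≤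
          ((2 * (s ^ 2 - ∑ k, Q k i * Q k i) : ℤ) : ℝ) := by exact_mod_cast hd i
        simpa [mul_apply, one_apply, Q'] using this) x
    rw [sub_mulVec, dotProduct_sub, ← mulVec_mulVec, dotProduct_mulVec x Q'ᵀ, vecMul_transpose,
      smul_mulVec, one_mulVec, dotProduct_smul, smul_eq_mul] at h
    linarith
  have h5 : (Q' * A).trace = (Uᵀ * Q' * U * diagonal hA.eigenvalues).trace := by
    conv_lhs => rw [h3, ← Matrix.mul_assoc, trace_mul_comm]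
    simp only [Matrix.mul_assoc]
  have h6 : ((∑ a, ∑ b, Q a b * M b a : ℤ) : ℝ) = (Q' * A).trace := by
    simp [trace, mul_apply, hM, Q']
  rw [h6, h5, trace, mul_sum]
  refine sum_le_sum fun i _ => ?_
  rw [diag_apply, mul_diagonal]
  refine (le_abs_self _).trans ?_
  rw [abs_mul]
  refine mul_le_mul_of_nonneg_right ?_ (abs_nonneg _)
  have u1 : Uᵀ i ⬝ᵥ Uᵀ i = 1 := by
    simpa [mul_apply, dotProduct] using congrFun (congrFun h1 i) i
  have u2 : (Uᵀ * Q' * U) i i = Uᵀ i ⬝ᵥ Q' *ᵥ Uᵀ i := by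
    rw [Matrix.mul_assoc]
    simp [mul_apply, dotProduct, mulVec]
  have u3 := c (Uᵀ i)
  have u4 := sum_mul_sq_le_sq_mul_sq univ (Uᵀ i) (Q' *ᵥ Uᵀ i)
  simp only [sq (Uᵀ i _), sq ((Q' *ᵥ Uᵀ i) _)] at u4
  rw [u1] at u3
  rw [u2]
  refine abs_le_of_sq_le_sq' ?_ s0.le |>.elim fun a b => abs_le.2 ⟨a, b⟩
  unfold dotProduct at u1 u3 ⊢
  rw [u1] at u4
  linarith

end Pool.Agent.Lib.helper27.EnergyCert
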