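import Mathlib

set_option autoImplicit false

namespace Pool.Agent.Lib.helper27.Petersen

open Finset SimpleGraph

variable {V : Type} [Fintype V] [DecidableEq V]

def ed (A : Finset (V × V)) : Finset (Sym2 V) := A.image fun a => s(a.1, a.2)

omit [Fintype V] in
theorem inc {A : Finset (V × V)} (h : ∀ x y, (x, y) ∈ A → (y, x) ∉ A) (x : V) :
    ((ed A).filter (x ∈ ·)).card = (A.filter (·.1 = x)).card + (A.filter (·.2 = x)).card := by
  rw [ed, filter_image, card_image_of_injOn, ← card_union_of_disjoint, ← filter_or]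
  · simp only [Sym2.mem_iff, eq_comm]
  · exact disjoint_filter.2 fun a ha p q => h a.1 a.2 ha (by rw [p, q] ; rwa [← Prod.mk.eta (p := a), p, q] at ha)
  · rintro ⟨a, b⟩ p ⟨c, d⟩ q e
    rcases Sym2.eq_iff.1 e with ⟨rfl, rfl⟩ | ⟨rfl, rfl⟩
    exacts [rfl, absurd (mem_filter.1 q).1 (h _ _ (mem_filter.1 p).1)]

theorem cnt {α : Type} [DecidableEq α] {l : List α} (h : l.Nodup) (p : α → Prop) [DecidablePred p] :
    (l.toFinset.filter p).card = l.countP p := by
  rw [List.countP_eq_length_filter, ← List.toFinset_card_of_nodup (h.filter _), List.toFinset_filter]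
  simp

theorem closed (F : Finset (Sym2 V)) (h1 : ∀ e ∈ F, ¬e.IsDiag) (h2 : ∀ x, Even (F.filter (x ∈ ·)).card)
    (h3 : F.Nonempty) : ∃ (u : V) (p : (fromEdgeSet (F : Set (Sym2 V))).Walk u u),
      p.IsTrail ∧ p.edges ≠ [] := by
  classical
  by_contra hc
  have E : ∀ e, e ∈ (fromEdgeSet (F : Set (Sym2 V))).edgeSet ↔ e ∈ F := fun e => by
    simpa using h1 e
  have : ∀ n, ∃ (u v : V) (p : (fromEdgeSet (F : Set (Sym2 V))).Walk u v),
      p.IsTrail ∧ p.length = n + 1 := fun n => by
    induction n with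
    | zero =>
      obtain ⟨⟨a, b⟩, he⟩ := h3
      exact ⟨a, b, .cons ((E s(a, b)).2 he) .nil, by simp, rfl⟩
    | succ n ih =>
      obtain ⟨u, v, p, t, l⟩ := ih
      have uv : u ≠ v := by
        rintro rfl
        exact hc ⟨u, p, t, fun e => by simp [← p.length_edges, e] at l⟩
      have := (t.even_countP_edges_iff u).not.2 (by simp [uv])
      obtain ⟨e, e1, e2⟩ : ∃ e ∈ F.filter (u ∈ ·), e ∉ p.edges := by
        by_contra z
        push Not at z
        refine this ?_
        have : p.edges.toFinset.filter (u ∈ ·) = F.filter (u ∈ ·) := Finset.ext fun e =>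
          ⟨fun h => mem_filter.2 ⟨(E e).1 (p.edges_subset_edgeSet (List.mem_toFinset.1
            (mem_filter.1 h).1)), (mem_filter.1 h).2⟩, fun h => mem_filter.2
              ⟨List.mem_toFinset.2 (z e h), (mem_filter.1 h).2⟩⟩
        have h := h2 u
        rwa [← this, cnt t.edges_nodup] at h
      obtain ⟨w, rfl⟩ := Sym2.mem_iff_exists.1 (mem_filter.1 e1).2
      rw [Sym2.eq_swap] at e1 e2
      exact ⟨w, v, .cons ((E _).2 (mem_filter.1 e1).1) p, (Walk.isTrail_cons _ _).2 ⟨t, e2⟩,
        by simp [l]⟩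
  obtain ⟨u, v, p, t, l⟩ := this (fromEdgeSet (F : Set (Sym2 V))).edgeFinset.card
  have := t.length_le_card_edgeFinset
  omega

theorem ori (F : Finset (Sym2 V)) : (∀ e ∈ F, ¬e.IsDiag) → (∀ x, Even (F.filter (x ∈ ·)).card) →
    ∃ A : Finset (V × V), (∀ x y, (x, y) ∈ A → (y, x) ∉ A) ∧ ed A = F ∧
      ∀ x, (A.filter (·.1 = x)).card = (A.filter (·.2 = x)).card := by
  induction F using Finset.strongInduction with
  | H F ih =>
  intro h1 h2
  rcases F.eq_empty_or_nonempty with rfl | h3
  · exact ⟨∅, by simp [ed]⟩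
  obtain ⟨u, p, t, n⟩ := closed F h1 h2 h3
  let L := p.darts.map (·.toProd)
  have e : L.map (fun a => s(a.1, a.2)) = p.edges := by rw [List.map_map]; rfl
  have nd : L.Nodup := .of_map _ (e ▸ t.edges_nodup)
  have eD : ed L.toFinset = p.edges.toFinset := by ext; simp only [ed, ← e]; simp
  have aD : ∀ x y, (x, y) ∈ L.toFinset → (y, x) ∉ L.toFinset := fun x y a b => by
    have := List.inj_on_of_nodup_map (e ▸ t.edges_nodup) (List.mem_toFinset.1 a)
      (List.mem_toFinset.1 b) Sym2.eq_swap
    obtain ⟨d, -, q⟩ := List.mem_map.1 (List.mem_toFinset.1 a)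
    exact d.adj.ne (by rw [q]; exact (Prod.mk.inj this).1)
  have bD : ∀ x, (L.toFinset.filter (·.1 = x)).card = (L.toFinset.filter (·.2 = x)).card := fun x => by
    rw [cnt nd, cnt nd]
    have := p.tail_support_perm_dropLast_support.countP_eq (· = x)
    rw [← p.map_fst_darts, ← p.map_snd_darts] at this
    simpa only [L, List.countP_map, Function.comp_def] using this.symm
  have sub : p.edges.toFinset ⊆ F := fun e h => by
    have := p.edges_subset_edgeSet (List.mem_toFinset.1 h)
    rw [edgeSet_fromEdgeSet] at this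
    exact this.1
  obtain ⟨A, a1, a2, a3⟩ := ih (F \ p.edges.toFinset) (sdiff_ssubset sub (by simpa using n))
    (fun e h => h1 e (mem_sdiff.1 h).1) fun x => by
      have := inc aD x
      have h := h2 x
      rw [← sdiff_union_of_subset sub, filter_union, card_union_of_disjoint
        (disjoint_filter_filter sdiff_disjoint), ← eD, this, bD, Nat.even_add] at h
      exact eD ▸ h.2 ⟨_, rfl⟩
  have dj : ∀ x y, (x, y) ∈ A → s(x, y) ∉ ed L.toFinset := fun x y h =>
    eD ▸ (mem_sdiff.1 (a2.le (mem_image_of_mem _ h))).2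
  have d2 : Disjoint A L.toFinset := disjoint_left.2 fun a h g => dj _ _ h (mem_image_of_mem _ g)
  refine ⟨A ∪ L.toFinset, fun x y a b => ?_, ?_, fun x => ?_⟩
  · rcases mem_union.1 a with a | a <;> rcases mem_union.1 b with b | b
    exacts [a1 _ _ a b, dj _ _ a (Sym2.eq_swap ▸ mem_image_of_mem _ b),
      dj _ _ b (Sym2.eq_swap ▸ mem_image_of_mem _ a), aD _ _ a b]
  · rw [← sdiff_union_of_subset sub, ← a2, ← eD]; exact image_union _ _
  · rw [filter_union, filter_union, card_union_of_disjoint (disjoint_filter_filter d2),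
      card_union_of_disjoint (disjoint_filter_filter d2), a3, bD]

theorem perm (k : ℕ) (A : Finset (V × V))
    (h : ∀ x, (A.filter (·.1 = x)).card = (A.filter (·.2 = x)).card ∧ (A.filter (·.1 = x)).card ≤ k + 1) :
    ∃ σ : Equiv.Perm V, ∀ x, (x, σ x) ∈ A ∨ x = σ x ∧ (A.filter (·.1 = x)).card ≤ k := by
  let w : V → V → ℕ := fun x y =>
    (if (x, y) ∈ A then 1 else 0) + if x = y then k + 1 - (A.filter (·.1 = x)).card else 0
  have r : ∀ x, ∑ y, w x y = k + 1 := fun x => by
    have : (univ.filter fun y => (x, y) ∈ A).card = (A.filter (·.1 = x)).card :=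
      card_bij (fun y _ => (x, y)) (by simp) (by simp) (by simp; grind)
    have := (h x).2
    simp only [w, sum_add_distrib, ← card_filter, sum_ite_eq, mem_univ, if_true]
    omega
  have c : ∀ y, ∑ x, w x y = k + 1 := fun y => by
    have : (univ.filter fun x => (x, y) ∈ A).card = (A.filter (·.2 = y)).card :=
      card_bij (fun x _ => (x, y)) (by simp) (by simp) (by simp; grind)
    have := h y
    simp only [w, sum_add_distrib, ← card_filter, sum_ite_eq', mem_univ, if_true]
    omega
  obtain ⟨f, f1, f2⟩ := (Fintype.all_card_le_filter_rel_iff_exists_injective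
    fun x y => w x y ≠ 0).1 fun S => by
      refine Nat.le_of_mul_le_mul_right (c := k + 1) ?_ k.succ_pos
      rw [← smul_eq_mul, ← smul_eq_mul, ← sum_const, ← sum_const, ← sum_congr rfl fun x _ => r x,
        ← sum_congr rfl fun x _ => c x, sum_comm, ← sum_subset (subset_univ
          (univ.filter fun y => ∃ x ∈ S, w x y ≠ 0)) fun y _ hy =>
          sum_eq_zero fun x hx => not_not.1 fun z => hy (mem_filter.2 ⟨mem_univ _, ⟨x, hx, z⟩⟩)]
      exact sum_le_sum fun y _ => sum_le_sum_of_subset (subset_univ _)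
  refine ⟨.ofBijective f f1.bijective_of_finite, fun x => ?_⟩
  have := f2 x
  simp only [w, Equiv.ofBijective_apply] at this ⊢
  split_ifs at this with a b b <;> simp only [a, true_or, false_or]
  · exact ⟨b, by omega⟩
  · omega

theorem pet (k : ℕ) : ∀ A : Finset (V × V), (∀ x y, (x, y) ∈ A → (y, x) ∉ A) →
    (∀ x, (A.filter (·.1 = x)).card = (A.filter (·.2 = x)).card ∧ (A.filter (·.1 = x)).card ≤ k) →
    ∃ c : Sym2 V → ℕ, (∀ e ∈ ed A, c e < k) ∧ ∀ i x,
      (((ed A).filter (c · = i)).filter (x ∈ ·)).card = 0 ∨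
      (((ed A).filter (c · = i)).filter (x ∈ ·)).card = 2 := by
  induction k with
  | zero =>
    intro A _ h
    have : A = ∅ := eq_empty_of_forall_notMem fun a ha =>
      card_ne_zero_of_mem (a := a) (mem_filter.2 ⟨ha, by rfl⟩) (Nat.le_zero.1 (h a.1).2)
    exact ⟨0, by simp [this, ed]⟩
  | succ k ih =>
  intro A a h
  obtain ⟨σ, hσ⟩ := perm k A h
  let M := A.filter fun a => a.2 = σ a.1
  have m1 : ∀ x, (M.filter (·.1 = x)).card = if x = σ x then 0 else 1 := fun x => by
    split_ifs with z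
    · refine card_eq_zero.2 (filter_eq_empty_iff.2 fun b hb e => ?_)
      have := mem_filter.1 hb
      rw [← Prod.mk.eta (p := b), this.2, e, ← z] at this
      exact a _ _ this.1 this.1
    · refine card_eq_one.2 ⟨(x, σ x), eq_singleton_iff_unique_mem.2 ⟨?_, fun b hb => ?_⟩⟩
      · simpa [M] using (hσ x).resolve_right fun g => z g.1
      · simp only [M, mem_filter] at hb
        exact Prod.ext hb.2 (hb.2 ▸ hb.1.2)
  have m2 : ∀ x, (M.filter (·.2 = x)).card = (M.filter (·.1 = x)).card := fun x => by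
    have := m1 (σ.symm x)
    simp only [Equiv.apply_symm_apply, Equiv.symm_apply_eq] at this
    rw [m1, ← this]
    refine congrArg _ (filter_congr fun b hb => ?_)
    rw [(mem_filter.1 hb).2, Equiv.eq_symm_apply]
  have sM : M ⊆ A := filter_subset _ _
  have sp : ∀ (p : V × V → Prop) [DecidablePred p],
      (A.filter p).card = ((A \ M).filter p).card + (M.filter p).card := fun p _ => by
    rw [← card_union_of_disjoint (disjoint_filter_filter sdiff_disjoint), ← filter_union,
      sdiff_union_of_subset sM]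
  obtain ⟨c, c1, c2⟩ := ih (A \ M) (fun x y p q => a x y (mem_sdiff.1 p).1 (mem_sdiff.1 q).1) fun x => by
    have := sp (·.1 = x)
    have := sp (·.2 = x)
    have := m1 x
    have := m2 x
    have := h x
    rcases hσ x with g | g
    · rw [if_neg fun z => a _ _ g (by rwa [← z] at g ⊢)] at *; omega
    · omega
  have dj : ∀ e ∈ ed (A \ M), e ∉ ed M := fun e p q => by
    obtain ⟨⟨x, y⟩, p', rfl⟩ := mem_image.1 p
    obtain ⟨⟨z, w⟩, q', e⟩ := mem_image.1 q
    rcases Sym2.eq_iff.1 e with ⟨rfl, rfl⟩ | ⟨rfl, rfl⟩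
    exacts [(mem_sdiff.1 p').2 q', a _ _ (mem_sdiff.1 p').1 (sM q')]
  have U : ∀ e, e ∈ ed A ↔ e ∈ ed (A \ M) ∨ e ∈ ed M := fun e => by
    rw [← mem_union, ed, ed, ed, ← image_union, sdiff_union_of_subset sM]
  refine ⟨fun e => if e ∈ ed M then k else c e, fun e he => ?_, fun i x => ?_⟩
  · beta_reduce
    split_ifs with z
    exacts [k.lt_succ_self, (c1 e (((U e).1 he).resolve_right z)).trans k.lt_succ_self]
  by_cases z : k = i
  · have : (ed A).filter (fun e => (if e ∈ ed M then k else c e) = i) = ed M := Finset.ext fun e => by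
      have := c1 e
      have := U e
      rw [mem_filter]
      split_ifs <;> grind
    rw [this, inc fun x y p q => a x y (sM p) (sM q), m2, m1]
    split_ifs <;> simp
  · have : (ed A).filter (fun e => (if e ∈ ed M then k else c e) = i) =
        (ed (A \ M)).filter (c · = i) := Finset.ext fun e => by
      have := dj e
      have := U e
      rw [mem_filter, mem_filter]
      split_ifs <;> grind
    exact this ▸ c2 i x

theorem petersen (k : ℕ) (F : Finset (Sym2 V)) (h1 : ∀ e ∈ F, ¬e.IsDiag)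
    (h2 : ∀ x, Even (F.filter (x ∈ ·)).card ∧ (F.filter (x ∈ ·)).card ≤ 2 * k) :
    ∃ c : Sym2 V → ℕ, (∀ e ∈ F, c e < k) ∧ ∀ i x,
      ((F.filter (c · = i)).filter (x ∈ ·)).card = 0 ∨ ((F.filter (c · = i)).filter (x ∈ ·)).card = 2 := by
  obtain ⟨A, a1, rfl, a3⟩ := ori F h1 fun x => (h2 x).1
  exact pet k A a1 fun x => ⟨a3 x, by have := h2 x; rw [inc a1, ← a3] at this; omega⟩

end Pool.Agent.Lib.helper27.Petersen
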